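import Pool.Agent.Lib.MP_634dc6_al.O.OTop

/-!
The index of the soluble radical is bounded in terms of the orders of the simple subnormal subgroups
of the quotient by the radical and of the numbers of automorphism orbits on the elements of small
prime power order. There is no condition on the radical.
-/

theorem Pool.Agent.Results.MP_634dc6_al.SmallOrders.result (M m : ℕ) :
    ∃ B : ℕ, ∀ (G : Type) [Group G] [Finite G] (R : Subgroup G) [R.Normal],
      Group.IsSolvable R →
      (∀ N : Subgroup G, N.Normal → Group.IsSolvable N → N ≤ R) →
      (∀ S : Subgroup (G ⧸ R), S.IsSubnormal → IsSimpleGroup S → Nat.card S ≤ M) →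
      (∀ n ≤ M ^ 2, IsPrimePow n →
        (MulAction.orbit (MulAut G) '' {g : G | orderOf g = n}).ncard ≤ m) →
      R.index ≤ B :=
  Pool.Agent.Lib.MP_634dc6_al.small_orders M m
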