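import Pool.Agent.Lib.MP_634dc6_al.S.SGood

/-!
The index of the soluble radical is bounded in terms of the orbit-to-order ratio for finite groups
with nonabelian composition factors of bounded order in which the commutator `X` of the radical
with the last term of the derived series has normal Sylow subgroups for the large primes, on which
`X` induces automorphisms of bounded coprime order.
-/

theorem Pool.Agent.Results.MP_634dc6_al.SmoothRadical.result (M : ℕ) (Q : ℝ) :
    ∃ B : ℕ, ∀ (G : Type) [Group G] [Finite G] (R X : Subgroup G),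
      R.Normal → Group.IsSolvable R →
      (∀ N : Subgroup G, N.Normal → Group.IsSolvable N → N ≤ R) →
      (∃ (k : ℕ) (s : ℕ → Subgroup G), s 0 = ⊥ ∧ s k = ⊤ ∧ ∀ j < k, s j ≤ s (j + 1) ∧
        ((s j).subgroupOf (s (j + 1))).Normal ∧
        (⁅s (j + 1), s (j + 1)⁆ ≤ s j ∨ (s j).relIndex (s (j + 1)) ≤ M)) →
      X = ⁅R, ⨅ n, derivedSeries G n⁆ →
      (∀ p : ℕ, p.Prime → M < p → ∀ P : Sylow p X, (P : Subgroup X).Normal ∧
        ∀ x ∈ P, ∀ y : X, (orderOf y).Coprime p → Commute x (y ^ M.factorial)) →
      (Nat.card (MulAction.orbitRel.Quotient (MulAut G) G) : ℝ) /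
        (Nat.card (Set.range (orderOf : G → ℕ)) : ℝ) ≤ Q →
      R.index ≤ B :=
  Pool.Agent.Lib.MP_634dc6_al.final M Q
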